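import Pool.Agent.Helper20.EX3.Statements

/-!
# MP_2857a5_co : modules LB, AVG, BD
-/

set_option autoImplicit false

open Finset
open scoped Classical

namespace OT

noncomputable section

theorem lbm_ce {n : ℕ} (T : PTree n) (Z : Finset (Fin n)) (i : Fin n) (h0 : (i : ℕ) ≠ 0)
    (h : ¬ (T.par i ∈ Z ∧ T.sg i = false)) :
    T.ce Z i = if T.sg i = T.sg (T.par i) then (T.par i, true) else T.ce Z (T.par i) := by
  rw [PTree.ce, dif_neg (by tauto)]

/-- The labelling is robust. -/
theorem x3_lb : StLB := by
  intro n T Z a b hZ y z hyz hy hz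
  rcases hyz with ⟨h1, h2, h3⟩ | ⟨h1, h2, h3⟩
  · -- `z` is a child of `y`
    have hce := lbm_ce T Z z h1 (by rw [h3]; simp)
    have e2 : (T.lb Z a b z).1 = T.eb Z a b z := by
      unfold PTree.lb; rw [h3]; rfl
    rw [e2]
    by_cases hs : T.sg y = true
    · have e1 : (T.lb Z a b y).2 = b y := by unfold PTree.lb; rw [hs]; rfl
      rw [e1]
      unfold PTree.eb
      rw [hce, h2, h3, hs]
      rfl
    · have hs' : T.sg y = false := by simpa using hs
      have e1 : (T.lb Z a b y).2 = T.eb Z a b y := by unfold PTree.lb; rw [hs']; rfl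
      rw [e1]
      unfold PTree.eb
      rw [hce, h2, h3, hs']
      rfl
  · have hce := lbm_ce T Z y h1 (by rw [h2]; tauto)
    have e2 : (T.lb Z a b y).2 = T.eb Z a b y := by
      unfold PTree.lb; rw [h3]; rfl
    rw [e2]
    by_cases hs : T.sg z = true
    · have e1 : (T.lb Z a b z).1 = T.eb Z a b z := by unfold PTree.lb; rw [hs]; rfl
      rw [e1]
      unfold PTree.eb
      rw [hce, h2, h3, hs]
      rfl
    · have hs' : T.sg z = false := by simpa using hs
      have e1 : (T.lb Z a b z).1 = b z := by unfold PTree.lb; rw [hs']; rfl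
      rw [e1]
      unfold PTree.eb
      rw [hce, h2, h3, hs']
      rfl

/-- One step of the second moment argument. -/
theorem avg_step {r : ℕ} (w : Bool × Bool → ℝ) (hw : ∀ s, 0 ≤ w s) (hw1 : ∑ s, w s = 1)
    (S : Fin r → ℝ) (f : Fin r → Bool × Bool → ℝ) (m : ℝ) (hf : ∀ k s, |f k s| ≤ m) :
    ∃ s, ∑ k, (S k + (f k s - ∑ s', w s' * f k s')) ^ 2 ≤ ∑ k, S k ^ 2 + r * m ^ 2 := by
  by_contra hcon
  push Not at hcon
  have h1 : ∑ s, w s * (∑ k, S k ^ 2 + r * m ^ 2) <
      ∑ s, w s * ∑ k, (S k + (f k s - ∑ s', w s' * f k s')) ^ 2 := by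
    apply Finset.sum_lt_sum
    · intro s _
      exact mul_le_mul_of_nonneg_left (hcon s).le (hw s)
    · by_contra hall
      push Not at hall
      have : ∀ s, w s = 0 := by
        intro s
        by_contra hne
        have hpos : 0 < w s := lt_of_le_of_ne (hw s) (Ne.symm hne)
        have := hall s (mem_univ _)
        exact absurd (mul_lt_mul_of_pos_left (hcon s) hpos) (not_lt.2 this)
      have h0 : ∑ s, w s = 0 := Finset.sum_eq_zero fun s _ => this s
      rw [hw1] at h0
      exact one_ne_zero h0
  rw [← Finset.sum_mul, hw1, one_mul] at h1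
  have h2 : ∑ s, w s * ∑ k, (S k + (f k s - ∑ s', w s' * f k s')) ^ 2 ≤
      ∑ k, S k ^ 2 + r * m ^ 2 := by
    simp_rw [Finset.mul_sum]
    rw [Finset.sum_comm]
    have : ∀ k, ∑ s, w s * (S k + (f k s - ∑ s', w s' * f k s')) ^ 2 ≤ S k ^ 2 + m ^ 2 := by
      intro k
      set E := ∑ s', w s' * f k s' with hE
      have e : ∀ s, w s * (S k + (f k s - E)) ^ 2 =
          w s * (S k ^ 2 - 2 * S k * E + E ^ 2) + (2 * S k - 2 * E) * (w s * f k s)
            + w s * f k s ^ 2 := by
        intro s; ring
      simp_rw [e]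
      rw [Finset.sum_add_distrib, Finset.sum_add_distrib, ← Finset.sum_mul, ← Finset.mul_sum, hw1,
        ← hE]
      have h3 : ∑ s, w s * f k s ^ 2 ≤ ∑ s, w s * m ^ 2 := by
        apply Finset.sum_le_sum
        intro s _
        apply mul_le_mul_of_nonneg_left _ (hw s)
        have := hf k s
        rw [← sq_abs (f k s)]
        exact pow_le_pow_left₀ (abs_nonneg _) this 2
      rw [← Finset.sum_mul, hw1, one_mul] at h3
      nlinarith [sq_nonneg E]
    calc _ ≤ ∑ k : Fin r, (S k ^ 2 + m ^ 2) := Finset.sum_le_sum fun k _ => this k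
      _ = _ := by rw [Finset.sum_add_distrib]; simp
  exact absurd h1 (not_lt.2 h2)

/-- Derandomised second moment. -/
theorem x3_avg : StAvg := by
  intro I _ m w r f δ n hδ hm hmδ hmn hw hw1 hf
  have key : ∀ A : Finset I, ∃ π : I → Bool × Bool,
      ∑ k, (∑ i ∈ A, (f k i (π i) - ∑ s, w s * f k i s)) ^ 2 ≤ r * ∑ i ∈ A, m i ^ 2 := by
    intro A
    induction A using Finset.induction_on with
    | empty => exact ⟨fun _ => (true, true), by simp⟩
    | insert i A hi ih =>
      obtain ⟨π, hπ⟩ := ih
      obtain ⟨s, hs⟩ := avg_step w hw hw1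
        (fun k => ∑ i ∈ A, (f k i (π i) - ∑ s, w s * f k i s)) (fun k s => f k i s) (m i)
        (fun k s => hf k i s)
      refine ⟨Function.update π i s, ?_⟩
      have e : ∀ k, ∑ j ∈ insert i A, (f k j (Function.update π i s j) - ∑ s, w s * f k j s) =
          ∑ j ∈ A, (f k j (π j) - ∑ s, w s * f k j s) + (f k i s - ∑ s, w s * f k i s) := by
        intro k
        rw [Finset.sum_insert hi, Function.update_self, add_comm]
        congr 1
        refine Finset.sum_congr rfl fun j hj => ?_
        rw [Function.update_of_ne (fun h : j = i => hi (h ▸ hj))]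
      simp_rw [e]
      rw [Finset.sum_insert hi, mul_add]
      linarith
  obtain ⟨π, hπ⟩ := key univ
  refine ⟨π, fun k => ?_⟩
  have h1 : (∑ i, (f k i (π i) - ∑ s, w s * f k i s)) ^ 2 ≤ r * ∑ i, m i ^ 2 :=
    le_trans (Finset.single_le_sum (f := fun k => (∑ i, (f k i (π i) - ∑ s, w s * f k i s)) ^ 2)
      (fun k _ => sq_nonneg _) (mem_univ k)) hπ
  rw [Finset.sum_sub_distrib] at h1
  have hn : 0 ≤ n := le_trans (Finset.sum_nonneg fun i _ => hm i) hmn
  have h2 : ∑ i, m i ^ 2 ≤ δ * n * n := by
    calc ∑ i, m i ^ 2 ≤ ∑ i, δ * n * m i := by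
          apply Finset.sum_le_sum
          intro i _
          rw [sq]
          exact mul_le_mul_of_nonneg_right (hmδ i) (hm i)
      _ = δ * n * ∑ i, m i := by rw [Finset.mul_sum]
      _ ≤ δ * n * n := mul_le_mul_of_nonneg_left hmn (by positivity)
  have hr : (0 : ℝ) ≤ r := Nat.cast_nonneg _
  have h3 : (r : ℝ) * ∑ i, m i ^ 2 ≤ r * (δ * n * n) := mul_le_mul_of_nonneg_left h2 hr
  have h4 : 0 ≤ (r : ℝ) * (δ * n * n) := by positivity
  nlinarith

/-! ### BD -/

section BD

variable {n : ℕ}

theorem bd_lt {p : Fin n → Option (Fin n)} (hp : ∀ i j, p i = some j → j < i)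
    {F : Finset (Fin n)} {i l : Fin n} (h : Reach p F i l) : i < l := by
  induction h with
  | base l h1 _ => exact hp l i h1
  | step l j h1 _ _ ih => exact lt_trans ih (hp l j h1)

theorem bd_notMem {p : Fin n → Option (Fin n)} {F : Finset (Fin n)} {i l : Fin n}
    (h : Reach p F i l) : l ∉ F := by
  cases h with
  | base _ _ h2 => exact h2
  | step _ _ _ h2 _ => exact h2

theorem bd_mono {p : Fin n → Option (Fin n)} (hp : ∀ i j, p i = some j → j < i)
    {F F' : Finset (Fin n)} {i l : Fin n} (hF : ∀ j, i < j → (j ∈ F' → j ∈ F))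
    (h : Reach p F i l) : Reach p F' i l := by
  induction h with
  | base l h1 h2 => exact Reach.base l h1 fun h => h2 (hF l (hp l i h1) h)
  | step l j h1 h2 h3 ih =>
    exact Reach.step l j h1 (fun h => h2 (hF l (lt_trans (bd_lt hp h3) (hp l j h1)) h)) ih

theorem bd_unique {p : Fin n → Option (Fin n)} {F : Finset (Fin n)} {i i' l : Fin n}
    (hi : i ∈ F) (hi' : i' ∈ F) (h : Reach p F i l) (h' : Reach p F i' l) : i = i' := by
  induction h with
  | base l h1 h2 =>
    cases h' with
    | base _ h3 _ => rw [h1] at h3; exact Option.some.inj h3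
    | step _ j h3 _ h5 =>
      rw [h1] at h3
      have : i = j := Option.some.inj h3
      subst this
      exact absurd hi (bd_notMem h5)
  | step l j h1 h2 h3 ih =>
    cases h' with
    | base _ h4 _ =>
      rw [h1] at h4
      have : j = i' := Option.some.inj h4
      subst this
      exact absurd hi' (bd_notMem h3)
    | step _ j' h4 _ h6 =>
      rw [h1] at h4
      have : j = j' := Option.some.inj h4
      subst this
      exact ih h6

theorem bd_ex (R : ℕ) (p : Fin n → Option (Fin n)) (hp : ∀ i j, p i = some j → j < i) (k : ℕ) :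
    ∃ F : Finset (Fin n), (∀ i ∈ F, n - k ≤ (i : ℕ)) ∧
      ∀ i : Fin n, n - k ≤ (i : ℕ) → (i ∈ F ↔ R ≤ (univ.filter fun l => Reach p F i l).card) := by
  induction k with
  | zero =>
    refine ⟨∅, by simp, fun i hi => ?_⟩
    have := i.2
    omega
  | succ k ih =>
    obtain ⟨F, hF1, hF2⟩ := ih
    by_cases hk : k < n
    · set i₀ : Fin n := ⟨n - (k + 1), by omega⟩ with hi₀
      have hi₀v : (i₀ : ℕ) = n - (k + 1) := rfl
      have hi₀F : i₀ ∉ F := by
        intro h
        have := hF1 i₀ h
        omega
      by_cases hR : R ≤ (univ.filter fun l => Reach p F i₀ l).card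
      · have hiff : ∀ i l : Fin n, n - (k + 1) ≤ (i : ℕ) →
            (Reach p (insert i₀ F) i l ↔ Reach p F i l) := by
          intro i l hi
          constructor
          · intro h
            exact bd_mono hp (fun j _ hj => mem_insert_of_mem hj) h
          · intro h
            refine bd_mono hp (fun j hj hjF => ?_) h
            rcases mem_insert.1 hjF with h' | h'
            · exfalso
              subst h'
              have : (i : ℕ) < (i₀ : ℕ) := hj
              omega
            · exact h'
        refine ⟨insert i₀ F, ?_, ?_⟩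
        · intro i hi
          rcases mem_insert.1 hi with h | h
          · rw [h]
          · have := hF1 i h
            omega
        · intro i hi
          have e : (univ.filter fun l => Reach p (insert i₀ F) i l) =
              (univ.filter fun l => Reach p F i l) := by
            ext l
            simp only [mem_filter, mem_univ, true_and]
            exact hiff i l hi
          rw [e]
          by_cases h : i = i₀
          · rw [h]
            exact ⟨fun _ => hR, fun _ => mem_insert_self _ _⟩
          · have hi' : n - k ≤ (i : ℕ) := by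
              have : (i : ℕ) ≠ (i₀ : ℕ) := fun h' => h (Fin.ext h')
              omega
            rw [← hF2 i hi']
            simp [h]
      · refine ⟨F, fun i hi => ?_, fun i hi => ?_⟩
        · have := hF1 i hi
          omega
        · by_cases h : i = i₀
          · rw [h]
            exact ⟨fun h => absurd h hi₀F, fun h => absurd h hR⟩
          · have hi' : n - k ≤ (i : ℕ) := by
              have : (i : ℕ) ≠ (i₀ : ℕ) := fun h' => h (Fin.ext h')
              omega
            exact hF2 i hi'
    · refine ⟨F, fun i hi => ?_, fun i hi => ?_⟩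
      · have := hF1 i hi
        omega
      · exact hF2 i (by omega)

end BD

/-- Blocks in a recursive tree. -/
theorem x3_bd : StBD := by
  intro n R p hR hp
  obtain ⟨F, -, hF⟩ := bd_ex R p hp n
  refine ⟨F, ?_, ?_⟩
  · have hdisj : ∀ i ∈ F, ∀ j ∈ F, i ≠ j →
        Disjoint (univ.filter fun l => Reach p F i l) (univ.filter fun l => Reach p F j l) := by
      intro i hi j hj hij
      rw [Finset.disjoint_left]
      intro l h1 h2
      simp only [mem_filter, mem_univ, true_and] at h1 h2
      exact hij (bd_unique hi hj h1 h2)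
    calc F.card * R = ∑ _i ∈ F, R := by simp
      _ ≤ ∑ i ∈ F, (univ.filter fun l => Reach p F i l).card := by
          apply Finset.sum_le_sum
          intro i hi
          exact (hF i (by simp)).1 hi
      _ = (F.biUnion fun i => univ.filter fun l => Reach p F i l).card :=
          (Finset.card_biUnion hdisj).symm
      _ ≤ (univ : Finset (Fin n)).card := card_le_card (subset_univ _)
      _ = n := by simp
  · intro i hi
    by_contra h
    exact hi ((hF i (by simp)).2 (not_lt.1 h))

end

end OT
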