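import Pool.Agent.Helper20.EX3.Statements
import Pool.Agent.Helper62.EX.TB

/-!
# MP_2857a5_co : module T3, flipping components to adjust one count
-/

set_option autoImplicit false

open Finset
open scoped Classical

namespace OT

noncomputable section

variable {n : ℕ}

/-- The new bits. -/
def t3_flip (M : Finset (Fin n)) (β : Bool) (b : Fin n → Bool) : Fin n → Bool :=
  fun j => if j ∈ M then !β else b j

/-- The vertices whose first bit changes. -/
def t3_aff (T : PTree n) (Z M : Finset (Fin n)) (v : Fin n) : Prop :=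
  (T.sg v = true ∧ (T.ce Z v).2 = true ∧ (T.ce Z v).1 ∈ M) ∨ (T.sg v = false ∧ v ∈ M)

/-- The vertices whose label may change. -/
def t3_ch (T : PTree n) (Z M : Finset (Fin n)) : Finset (Fin n) :=
  univ.filter fun v => v ∈ M ∨ ((T.ce Z v).2 = true ∧ (T.ce Z v).1 ∈ M)

theorem t3_fst (T : PTree n) (Z : Finset (Fin n)) (a b : Fin n → Bool) (v : Fin n) :
    (T.lb Z a b v).1 = if T.sg v = true then T.eb Z a b v else b v := by
  unfold PTree.lb
  by_cases h : T.sg v = true
  · rw [if_pos h, if_pos h]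
  · rw [if_neg h, if_neg h]

theorem t3_aff_old (T : PTree n) (Z M : Finset (Fin n)) (a b : Fin n → Bool) (β : Bool)
    (hb : ∀ j ∈ M, b j = β) (v : Fin n) (h : t3_aff T Z M v) : (T.lb Z a b v).1 = β := by
  rw [t3_fst]
  rcases h with ⟨h1, h2, h3⟩ | ⟨h1, h2⟩
  · rw [if_pos h1, PTree.eb, if_pos h2, hb _ h3]
  · rw [if_neg (by rw [h1]; simp), hb _ h2]

theorem t3_aff_new (T : PTree n) (Z M : Finset (Fin n)) (a b : Fin n → Bool) (β : Bool)
    (v : Fin n) (h : t3_aff T Z M v) : (T.lb Z a (t3_flip M β b) v).1 = !β := by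
  rw [t3_fst]
  rcases h with ⟨h1, h2, h3⟩ | ⟨h1, h2⟩
  · rw [if_pos h1, PTree.eb, if_pos h2, t3_flip, if_pos h3]
  · rw [if_neg (by rw [h1]; simp), t3_flip, if_pos h2]

theorem t3_aff_not (T : PTree n) (Z M : Finset (Fin n)) (a b : Fin n → Bool) (β : Bool)
    (v : Fin n) (h : ¬ t3_aff T Z M v) :
    (T.lb Z a (t3_flip M β b) v).1 = (T.lb Z a b v).1 := by
  rw [t3_fst, t3_fst]
  unfold t3_aff at h
  by_cases h1 : T.sg v = true
  · rw [if_pos h1, if_pos h1, PTree.eb, PTree.eb]
    by_cases h2 : (T.ce Z v).2 = true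
    · rw [if_pos h2, if_pos h2, t3_flip, if_neg (fun h3 => h (Or.inl ⟨h1, h2, h3⟩))]
    · rw [if_neg h2, if_neg h2]
  · rw [if_neg h1, if_neg h1, t3_flip,
      if_neg (fun h3 => h (Or.inr ⟨by simpa using h1, h3⟩))]

theorem t3_lb_not (T : PTree n) (Z M : Finset (Fin n)) (a b : Fin n → Bool) (β : Bool)
    (v : Fin n) (h : v ∉ t3_ch T Z M) :
    T.lb Z a (t3_flip M β b) v = T.lb Z a b v := by
  have h' : ¬ (v ∈ M ∨ ((T.ce Z v).2 = true ∧ (T.ce Z v).1 ∈ M)) := by
    simpa [t3_ch] using h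
  push Not at h'
  have e1 : t3_flip M β b v = b v := by rw [t3_flip, if_neg h'.1]
  have e2 : T.eb Z a (t3_flip M β b) v = T.eb Z a b v := by
    rw [PTree.eb, PTree.eb]
    by_cases h2 : (T.ce Z v).2 = true
    · rw [if_pos h2, if_pos h2, t3_flip, if_neg (h'.2 h2)]
    · rw [if_neg h2, if_neg h2]
  unfold PTree.lb
  rw [e1, e2]

theorem t3_card_ch (T : PTree n) (Z M : Finset (Fin n)) (u : ℝ)
    (hM : ∀ j ∈ M, ((univ.filter fun i => T.ce Z i = (j, true)).card : ℝ) ≤ u) :
    ((t3_ch T Z M).card : ℝ) ≤ (M.card : ℝ) * (1 + u) := by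
  have h1 : t3_ch T Z M ⊆ M ∪ M.biUnion fun j => univ.filter fun i => T.ce Z i = (j, true) := by
    intro v hv
    have hv' : v ∈ M ∨ ((T.ce Z v).2 = true ∧ (T.ce Z v).1 ∈ M) := by simpa [t3_ch] using hv
    rcases hv' with h | ⟨h, h'⟩
    · exact mem_union_left _ h
    · refine mem_union_right _ (mem_biUnion.2 ⟨_, h', ?_⟩)
      simp only [mem_filter, mem_univ, true_and]
      exact Prod.ext rfl h
  have h2 : ((t3_ch T Z M).card : ℝ) ≤
      (M.card : ℝ) + ∑ j ∈ M, ((univ.filter fun i => T.ce Z i = (j, true)).card : ℝ) := by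
    have := (card_le_card h1).trans ((card_union_le _ _).trans
      (Nat.add_le_add_left card_biUnion_le _))
    exact_mod_cast this
  have h3 := Finset.sum_le_sum hM
  rw [Finset.sum_const, nsmul_eq_mul] at h3
  nlinarith

theorem t3_card_aff (T : PTree n) (Z M : Finset (Fin n)) (j₀ : ℕ)
    (hM : ∀ j ∈ M, T.inh Z j = j₀) :
    (univ.filter fun v => t3_aff T Z M v).card = M.card * j₀ := by
  have e : (univ.filter fun v => t3_aff T Z M v) = M.biUnion fun j =>
      (if T.sg j then ∅ else {j}) ∪ (univ.filter fun i => T.ce Z i = (j, true) ∧ T.sg i = true) := by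
    ext v
    simp only [mem_filter, mem_univ, true_and, mem_biUnion, mem_union]
    constructor
    · rintro (⟨h1, h2, h3⟩ | ⟨h1, h2⟩)
      · exact ⟨_, h3, Or.inr ⟨Prod.ext rfl h2, h1⟩⟩
      · exact ⟨v, h2, Or.inl (by rw [if_neg (by rw [h1]; simp)]; exact mem_singleton_self v)⟩
    · rintro ⟨j, hj, h | ⟨h1, h2⟩⟩
      · by_cases hs : T.sg j = true
        · rw [if_pos hs] at h
          exact absurd h (notMem_empty _)
        · rw [if_neg hs] at h
          rw [mem_singleton.1 h]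
          exact Or.inr ⟨by simpa using hs, hj⟩
      · exact Or.inl ⟨h2, by rw [h1], by rw [h1]; exact hj⟩
  rw [e, card_biUnion]
  · rw [← smul_eq_mul, ← Finset.sum_const]
    refine Finset.sum_congr rfl fun j hj => ?_
    rw [← hM j hj, PTree.inh, card_union_of_disjoint]
    · congr 1
      split_ifs <;> simp
    · rw [Finset.disjoint_left]
      intro v h1 h2
      simp only [mem_filter, mem_univ, true_and] at h2
      by_cases hs : T.sg j = true
      · rw [if_pos hs] at h1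
        exact absurd h1 (notMem_empty _)
      · rw [if_neg hs] at h1
        rw [mem_singleton.1 h1] at h2
        exact hs h2.2
  · intro j hj j' hj' hne
    refine Finset.disjoint_left.2 ?_
    intro v h1 h2
    simp only [mem_filter, mem_univ, true_and, mem_union] at h1 h2
    have hf : ∀ k : Fin n, v ∈ (if T.sg k then (∅ : Finset (Fin n)) else {k}) →
        T.sg v = false ∧ v = k := by
      intro k hk
      by_cases hs : T.sg k = true
      · rw [if_pos hs] at hk
        exact absurd hk (notMem_empty _)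
      · rw [if_neg hs] at hk
        have := mem_singleton.1 hk
        subst this
        exact ⟨by simpa using hs, rfl⟩
    rcases h1 with h1 | h1
    · rcases h2 with h2 | h2
      · exact hne ((hf j h1).2.symm.trans (hf j' h2).2)
      · rw [(hf j h1).1] at h2
        exact absurd h2.2 (by simp)
    · rcases h2 with h2 | h2
      · rw [(hf j' h2).1] at h1
        exact absurd h1.2 (by simp)
      · have := h1.1.symm.trans h2.1
        exact hne (congrArg Prod.fst this)

theorem t3_count (T : PTree n) (Z M : Finset (Fin n)) (a b : Fin n → Bool) (β : Bool) (j₀ : ℕ)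
    (hb : ∀ j ∈ M, b j = β) (hM : ∀ j ∈ M, T.inh Z j = j₀)
    (hZ : ∀ v, t3_aff T Z M v → v ∉ Z) :
    (univ.filter fun v => v ∉ Z ∧ (T.lb Z a (t3_flip M β b) v).1 = β).card + M.card * j₀ =
      (univ.filter fun v => v ∉ Z ∧ (T.lb Z a b v).1 = β).card := by
  rw [← t3_card_aff T Z M j₀ hM, ← card_union_of_disjoint]
  · congr 1
    ext v
    simp only [mem_filter, mem_univ, true_and, mem_union]
    by_cases h : t3_aff T Z M v
    · simp only [h, or_true, true_iff]
      exact ⟨hZ v h, t3_aff_old T Z M a b β hb v h⟩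
    · simp only [h, or_false]
      rw [t3_aff_not T Z M a b β v h]
  · rw [Finset.disjoint_left]
    intro v h1 h2
    simp only [mem_filter, mem_univ, true_and] at h1 h2
    rw [t3_aff_new T Z M a b β v h2] at h1
    cases β <;> simp at h1

theorem t3_arc_nb {T : PTree n} {x y : Fin n} (h : T.Arc x y) : T.Nb x y := by
  rcases h with ⟨h1, h2, _⟩ | ⟨h1, h2, _⟩
  · exact Or.inl ⟨h1, h2⟩
  · exact Or.inr ⟨h1, h2⟩

theorem t3_ctx (T : PTree n) {Δ : ℕ} (hT : T.Deg Δ) (Z Ch : Finset (Fin n))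
    (lab lab' : Fin n → Bool × Bool) (h : ∀ v, v ∉ Ch → lab' v = lab v) (l : Bool × Bool) :
    (T.ctx Z lab l).card ≤ (T.ctx Z lab' l).card + (Δ + 2) * Ch.card := by
  have hsub : T.ctx Z lab l ⊆ T.ctx Z lab' l ∪ Ch.biUnion fun c => T.ball 1 c := by
    intro t ht
    by_cases hc : t ∈ Ch.biUnion fun c => T.ball 1 c
    · exact mem_union_right _ hc
    · apply mem_union_left
      have hc' : ∀ c ∈ Ch, t ∉ T.ball 1 c := by
        intro c hc1 hc2
        exact hc (mem_biUnion.2 ⟨c, hc1, hc2⟩)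
      simp only [PTree.ctx, mem_filter, mem_univ, true_and] at ht ⊢
      obtain ⟨h1, h2, h3, h4⟩ := ht
      refine ⟨h1, h2, ?_, fun y hy => ⟨(h4 y hy).1, ?_⟩⟩
      · rw [h t (fun hh => hc' t hh (T.self_mem_ball 1 t))]
        exact h3
      · rw [h y (fun hh => hc' y hh (t3_arc_nb hy).mem_ball)]
        exact (h4 y hy).2
  refine (card_le_card hsub).trans ((card_union_le _ _).trans (Nat.add_le_add_left ?_ _))
  refine card_biUnion_le.trans ?_
  calc ∑ c ∈ Ch, (T.ball 1 c).card ≤ ∑ _c ∈ Ch, (Δ + 2) := by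
        apply Finset.sum_le_sum
        intro c _
        have := T.card_ball hT 1 c
        simpa using this
    _ = (Δ + 2) * Ch.card := by rw [Finset.sum_const, smul_eq_mul, mul_comm]

theorem t3_cnt (Ch : Finset (Fin n)) (Z : Finset (Fin n)) (lab lab' : Fin n → Bool × Bool)
    (h : ∀ v, v ∉ Ch → lab' v = lab v) (l : Bool × Bool) :
    (univ.filter fun v => v ∉ Z ∧ lab v = l).card ≤
      (univ.filter fun v => v ∉ Z ∧ lab' v = l).card + Ch.card := by
  have : (univ.filter fun v => v ∉ Z ∧ lab v = l) ⊆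
      (univ.filter fun v => v ∉ Z ∧ lab' v = l) ∪ Ch := by
    intro v hv
    by_cases hc : v ∈ Ch
    · exact mem_union_right _ hc
    · apply mem_union_left
      simp only [mem_filter, mem_univ, true_and] at hv ⊢
      rw [h v hc]
      exact hv
  exact (card_le_card this).trans (card_union_le _ _)

/-- The number of `v` outside `Z` with first bit `true`, from the four counts. -/
theorem t3_two (Z : Finset (Fin n)) (lab : Fin n → Bool × Bool) :
    (univ.filter fun v => v ∉ Z ∧ (lab v).1 = true).card =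
      (univ.filter fun v => v ∉ Z ∧ lab v = (true, true)).card +
      (univ.filter fun v => v ∉ Z ∧ lab v = (true, false)).card := by
  rw [← card_union_of_disjoint]
  · congr 1
    ext v
    simp only [mem_filter, mem_univ, true_and, mem_union]
    rcases hl : lab v with ⟨x, y⟩
    cases x <;> cases y <;> simp
  · rw [Finset.disjoint_left]
    intro v h1 h2
    simp only [mem_filter, mem_univ, true_and] at h1 h2
    rw [h1.2] at h2
    simp at h2

theorem t3_compl (Z : Finset (Fin n)) (f : Fin n → Bool) (β : Bool) :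
    (univ.filter fun v => v ∉ Z ∧ f v = β).card + (univ.filter fun v => v ∉ Z ∧ f v = !β).card =
      (univ.filter fun v => v ∉ Z).card := by
  rw [← card_union_of_disjoint]
  · congr 1
    ext v
    simp only [mem_filter, mem_univ, true_and, mem_union]
    cases f v <;> cases β <;> simp
  · rw [Finset.disjoint_left]
    intro v h1 h2
    simp only [mem_filter, mem_univ, true_and] at h1 h2
    rw [h1.2] at h2
    cases β <;> simp at h2

/-- The result of flipping the set `M`. -/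
theorem t3_main (hLB : StLB) {Δ : ℕ} (T : PTree n) (hT : T.Deg Δ) (Z : Finset (Fin n))
    (a b : Fin n → Bool) (k k' k'' : Bool × Bool)
    (hZ1 : ∀ z ∈ Z, (z : ℕ) ≠ 0 ∧ T.sg z = true)
    (hZ3 : ∀ z ∈ Z, (∀ y, T.Arc y z → T.lb Z a b y = k ∨ T.lb Z a b y = k') ∧
      ∀ y, T.Arc z y → T.lb Z a b y = k'')
    (M : Finset (Fin n)) (β : Bool) (j₀ : ℕ) (u : ℝ) (hb : ∀ j ∈ M, b j = β)
    (hM : ∀ j ∈ M, T.inh Z j = j₀ ∧ ((univ.filter fun i => T.ce Z i = (j, true)).card : ℝ) ≤ u ∧
        (∀ z ∈ Z, j ∉ T.ball 1 z ∧ ∀ i, T.ce Z i = (j, true) → i ∉ T.ball 1 z)) :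
    ∃ lab : Fin n → Bool × Bool,
    (∀ y z, T.Arc y z → y ∉ Z → z ∉ Z → (lab y).2 = (lab z).1) ∧
    (∀ z ∈ Z, (∀ y, T.Arc y z → lab y = k ∨ lab y = k') ∧ ∀ y, T.Arc z y → lab y = k'') ∧
    ((univ.filter fun v => v ∉ Z ∧ (lab v).1 = β).card + M.card * j₀ =
      (univ.filter fun v => v ∉ Z ∧ (T.lb Z a b v).1 = β).card) ∧
    (∀ l : Bool × Bool, |(((univ.filter fun v => v ∉ Z ∧ lab v = l).card : ℕ) : ℝ) -
      (((univ.filter fun v => v ∉ Z ∧ T.lb Z a b v = l).card : ℕ) : ℝ)| ≤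
        (M.card : ℝ) * (1 + u)) ∧
    (∀ l : Bool × Bool, ((T.ctx Z (T.lb Z a b) l).card : ℝ) ≤
      ((T.ctx Z lab l).card : ℝ) + (Δ + 2) * ((M.card : ℝ) * (1 + u))) := by
  have hnch : ∀ z ∈ Z, ∀ y, y ∈ T.ball 1 z → y ∉ t3_ch T Z M := by
    intro z hz y hy hc
    have hc' : y ∈ M ∨ ((T.ce Z y).2 = true ∧ (T.ce Z y).1 ∈ M) := by simpa [t3_ch] using hc
    rcases hc' with h | ⟨h, h'⟩
    · exact ((hM y h).2.2 z hz).1 hy
    · exact ((hM _ h').2.2 z hz).2 y (Prod.ext rfl h) hy
  have hsame := t3_lb_not T Z M a b β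
  have hcard := t3_card_ch T Z M u (fun j hj => (hM j hj).2.1)
  refine ⟨T.lb Z a (t3_flip M β b), hLB n T Z a _ hZ1, fun z hz => ⟨fun y hy => ?_, fun y hy => ?_⟩,
    t3_count T Z M a b β j₀ hb (fun j hj => (hM j hj).1) ?_, fun l => ?_, fun l => ?_⟩
  · rw [hsame y (hnch z hz y (PTree.mem_ball_comm.1 (t3_arc_nb hy).mem_ball))]
    exact (hZ3 z hz).1 y hy
  · rw [hsame y (hnch z hz y (t3_arc_nb hy).mem_ball)]
    exact (hZ3 z hz).2 y hy
  · intro v hv hz
    refine hnch v hz v (T.self_mem_ball 1 v) ?_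
    simp only [t3_ch, mem_filter, mem_univ, true_and]
    rcases hv with ⟨_, h2, h3⟩ | ⟨_, h2⟩
    · exact Or.inr ⟨h2, h3⟩
    · exact Or.inl h2
  · have h1 := t3_cnt (t3_ch T Z M) Z (T.lb Z a b) (T.lb Z a (t3_flip M β b)) hsame l
    have h2 := t3_cnt (t3_ch T Z M) Z (T.lb Z a (t3_flip M β b)) (T.lb Z a b)
      (fun v hv => (hsame v hv).symm) l
    have h1' : (((univ.filter fun v => v ∉ Z ∧ T.lb Z a b v = l).card : ℕ) : ℝ) ≤
      (((univ.filter fun v => v ∉ Z ∧ T.lb Z a (t3_flip M β b) v = l).card : ℕ) : ℝ) +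
        ((t3_ch T Z M).card : ℝ) := by exact_mod_cast h1
    have h2' : (((univ.filter fun v => v ∉ Z ∧ T.lb Z a (t3_flip M β b) v = l).card : ℕ) : ℝ) ≤
      (((univ.filter fun v => v ∉ Z ∧ T.lb Z a b v = l).card : ℕ) : ℝ) +
        ((t3_ch T Z M).card : ℝ) := by exact_mod_cast h2
    rw [abs_le]
    constructor <;> linarith
  · have h1 := t3_ctx T hT Z (t3_ch T Z M) (T.lb Z a b) (T.lb Z a (t3_flip M β b)) hsame l
    have h1' : ((T.ctx Z (T.lb Z a b) l).card : ℝ) ≤
        ((T.ctx Z (T.lb Z a (t3_flip M β b)) l).card : ℝ) +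
          ((Δ : ℝ) + 2) * ((t3_ch T Z M).card : ℝ) := by exact_mod_cast h1
    have h2 : ((Δ : ℝ) + 2) * ((t3_ch T Z M).card : ℝ) ≤
        ((Δ : ℝ) + 2) * ((M.card : ℝ) * (1 + u)) := by
      apply mul_le_mul_of_nonneg_left hcard
      positivity
    linarith

/-- The same with an almost exact number of labels with first bit `true`. -/
theorem x3_t3 (h1 : StT3A) (h2 : StLB) : StT3 := by
  intro Δ d γ ε hγ hε
  obtain ⟨σ, hσ, hA⟩ := h1 Δ d γ ε hγ hε
  refine ⟨σ / 2, by positivity, fun η hη => ?_⟩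
  set u : ℝ := 1 / σ with hu
  have hu0 : 0 < u := by positivity
  set τ : ℝ := min σ η / (6 * (Δ + 2) * (1 + u)) with hτ
  have hmin : 0 < min σ η := lt_min hσ hη
  have hτ0 : 0 < τ := by positivity
  obtain ⟨C, N, hA'⟩ := hA τ hτ0
  refine ⟨τ, hτ0, |C| + u, N, fun n T hn hT hS x hx1 hx2 k k' k'' hk N₁ hN₁ => ?_⟩
  obtain ⟨Z, a, b, hC, hZ1, hZ2, hZ3, hcnt, hctx, J, j₀, hj1, hj2, hJ, hJc⟩ :=
    hA' n T hn hT hS x hx1 hx2 k k' k'' hk
  have hn0 : (0 : ℝ) ≤ n := Nat.cast_nonneg n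
  have hΔ : (0 : ℝ) ≤ Δ := Nat.cast_nonneg Δ
  -- arithmetic of the constants
  have c0 : τ * (6 * (Δ + 2) * (1 + u)) = min σ η := by
    rw [hτ]; field_simp
  have c1 : 3 * τ * (1 + u) * (Δ + 2) ≤ σ / 2 := by
    have := min_le_left σ η
    nlinarith
  have c2 : 3 * τ * (1 + u) * (Δ + 2) ≤ η / 2 := by
    have := min_le_right σ η
    nlinarith
  have c3 : 3 * τ * (1 + u) ≤ 3 * τ * (1 + u) * (Δ + 2) / 2 := by
    have : 0 ≤ 3 * τ * (1 + u) := by positivity
    nlinarith
  have c4 : 3 * τ ≤ 3 * τ * (1 + u) := by nlinarith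
  have hj0 : (0 : ℝ) < j₀ := by exact_mod_cast hj1
  have hj1' : (1 : ℝ) ≤ j₀ := by exact_mod_cast hj1
  set N₀ : ℝ := (((univ.filter fun v => v ∉ Z ∧ (T.lb Z a b v).1 = true).card : ℕ) : ℝ) with hN₀
  have hN0 : |N₀ - (n : ℝ) / 2| ≤ 2 * τ * n := by
    have e := t3_two Z (T.lb Z a b)
    have e' : N₀ = (((univ.filter fun v => v ∉ Z ∧ T.lb Z a b v = (true, true)).card : ℕ) : ℝ) +
        (((univ.filter fun v => v ∉ Z ∧ T.lb Z a b v = (true, false)).card : ℕ) : ℝ) := by
      rw [hN₀]; exact_mod_cast e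
    have a1 := hcnt (true, true)
    have a2 := hcnt (true, false)
    simp only [if_true] at a1
    simp only [Bool.true_eq_false, if_false] at a2
    rw [abs_le] at a1 a2 ⊢
    rw [e']
    constructor <;> linarith [a1.1, a1.2, a2.1, a2.2]
  have hD : |N₀ - N₁| ≤ 3 * τ * n := by
    rw [abs_le] at hN0 hN₁ ⊢
    constructor <;> linarith [hN0.1, hN0.2, hN₁.1, hN₁.2]
  -- the bit and the number of flips
  obtain ⟨β, hβ⟩ : ∃ β : Bool, |N₀ - N₁| = (if β = true then 1 else -1) * (N₀ - N₁) := by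
    rcases le_total 0 (N₀ - N₁) with h | h
    · exact ⟨true, by rw [abs_of_nonneg h]; simp⟩
    · exact ⟨false, by rw [abs_of_nonpos h]; simp⟩
  set m : ℕ := ⌊|N₀ - N₁| / j₀⌋₊ with hm
  have hm1 : (m : ℝ) * j₀ ≤ |N₀ - N₁| := by
    have := Nat.floor_le (div_nonneg (abs_nonneg (N₀ - N₁)) hj0.le)
    rw [← hm, le_div_iff₀ hj0] at this
    exact this
  have hm2 : |N₀ - N₁| ≤ (m : ℝ) * j₀ + j₀ := by
    have := Nat.lt_floor_add_one (|N₀ - N₁| / j₀)
    rw [← hm, div_lt_iff₀ hj0] at this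
    linarith
  have hm0 : (0 : ℝ) ≤ m := Nat.cast_nonneg m
  have hm3 : (m : ℝ) ≤ 3 * τ * n := by nlinarith
  have hm4 : m ≤ (J.filter fun j => b j = β).card := by
    have h3 := hJc β
    have : (m : ℝ) ≤ ((J.filter fun j => b j = β).card : ℝ) := by
      have : 3 * τ * (n : ℝ) ≤ σ * n := mul_le_mul_of_nonneg_right (by linarith) hn0
      linarith
    exact_mod_cast this
  obtain ⟨M, hMs, hMc⟩ := exists_subset_card_eq hm4
  obtain ⟨lab, r1, r2, r3, r4, r5⟩ := t3_main h2 T hT Z a b k k' k'' hZ1 hZ3 M β j₀ u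
    (fun j hj => (mem_filter.1 (hMs hj)).2) (fun j hj => hJ j (mem_filter.1 (hMs hj)).1)
  rw [hMc] at r3 r4 r5
  have hmu : (m : ℝ) * (1 + u) ≤ 3 * τ * (1 + u) * n := by
    have : (m : ℝ) * (1 + u) ≤ 3 * τ * n * (1 + u) :=
      mul_le_mul_of_nonneg_right hm3 (by positivity)
    linarith
  refine ⟨Z, lab, ?_, hZ2, r1, r2, ?_, fun l => ?_, fun l => ?_⟩
  · exact hC.trans ((le_abs_self C).trans (by linarith))
  · -- the number of labels with first bit true
    set N₀' : ℝ := (((univ.filter fun v => v ∉ Z ∧ (lab v).1 = true).card : ℕ) : ℝ) with hN₀'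
    have key : N₀' = N₀ - (if β = true then 1 else -1) * ((m : ℝ) * j₀) := by
      cases hβc : β with
      | true =>
        rw [hβc] at r3
        have r3' : N₀' + (m : ℝ) * j₀ = N₀ := by
          rw [hN₀', hN₀]; exact_mod_cast r3
        simp only [if_true]
        linarith
      | false =>
        rw [hβc] at r3
        have q1 := t3_compl Z (fun v => (lab v).1) true
        have q2 := t3_compl Z (fun v => (T.lb Z a b v).1) true
        simp only [Bool.not_true] at q1 q2
        have q3 : (univ.filter fun v => v ∉ Z ∧ (lab v).1 = true).card =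
            (univ.filter fun v => v ∉ Z ∧ (T.lb Z a b v).1 = true).card + m * j₀ := by omega
        have q4 : N₀' = N₀ + (m : ℝ) * j₀ := by
          rw [hN₀', hN₀]; exact_mod_cast q3
        simp only [Bool.false_eq_true, if_false]
        linarith
    have key2 : |N₀' - N₁| = |N₀ - N₁| - (m : ℝ) * j₀ := by
      have e : N₀' - N₁ = (if β = true then 1 else -1) * (|N₀ - N₁| - (m : ℝ) * j₀) := by
        rw [hβ, key]
        cases β <;> simp <;> ring
      rw [e, abs_mul, abs_of_nonneg (sub_nonneg.2 hm1)]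
      cases β <;> simp
    rw [key2]
    have := abs_nonneg C
    linarith
  · have a1 := hcnt l
    have a2 := r4 l
    have : 3 * τ * (1 + u) * n + τ * n ≤ η * n := by
      rw [← add_mul]
      apply mul_le_mul_of_nonneg_right _ hn0
      have : τ ≤ 3 * τ := by linarith
      linarith
    rw [abs_le] at a1 a2 ⊢
    constructor <;> linarith [a1.1, a1.2, a2.1, a2.2]
  · have a1 := hctx l
    have a2 := r5 l
    have : ((Δ : ℝ) + 2) * ((m : ℝ) * (1 + u)) ≤ σ / 2 * n := by
      calc ((Δ : ℝ) + 2) * ((m : ℝ) * (1 + u)) ≤ (Δ + 2) * (3 * τ * (1 + u) * n) :=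
            mul_le_mul_of_nonneg_left hmu (by positivity)
        _ = 3 * τ * (1 + u) * (Δ + 2) * n := by ring
        _ ≤ σ / 2 * n := mul_le_mul_of_nonneg_right c1 hn0
    linarith

end

end OT
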